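import Mathlib

/-!
# The sum over the points of a Cantor set in base four
-/

set_option autoImplicit false

open MeasureTheory Set

namespace Pool.Agent.N3.RS

/-- `L k`: the `3 ^ k` numbers `∑_{n < k} d n / 4 ^ (n + 1)` with digits `d n` in `{0, 1, 2}`. -/
noncomputable def L : ℕ → List ℝ
  | 0 => [0]
  | k + 1 => (L k).map (fun c => c / 4) ++ ((L k).map (fun c => (1 + c) / 4) ++
      (L k).map (fun c => (2 + c) / 4))

/-- the bound for the length of a slice -/
noncomputable def f (a w : ℝ) : ℝ := 2 * w / √(max |a| w)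

theorem L_length (k : ℕ) : (L k).length = 3 ^ k := by
  induction k with
  | zero => simp [L]
  | succ k ih => simp [L, ih]; ring

theorem L_range (k : ℕ) : ∀ c ∈ L k, 0 ≤ c ∧ c ≤ 2 / 3 := by
  induction k with
  | zero => intro c hc; simp [L] at hc; subst hc; norm_num
  | succ k ih =>
    intro c hc
    simp only [L, List.mem_append, List.mem_map] at hc
    rcases hc with ⟨c', hc', rfl⟩ | ⟨c', hc', rfl⟩ | ⟨c', hc', rfl⟩ <;>
    · have := ih c' hc'
      constructor <;> linarith

theorem sum_L_succ (k : ℕ) (g : ℝ → ℝ) :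
    ((L (k + 1)).map g).sum = ((L k).map (fun c => g (c / 4))).sum +
      (((L k).map (fun c => g ((1 + c) / 4))).sum + ((L k).map (fun c => g ((2 + c) / 4))).sum) := by
  simp [L, List.map_map, Function.comp_def]

theorem f_scale {a w : ℝ} (hw : 0 < w) : f (a / 4) w = f a (4 * w) / 2 := by
  unfold f
  have h1 : max |a| (4 * w) = 4 * max |a / 4| w := by
    rw [mul_max_of_nonneg _ _ (by norm_num : (0:ℝ) ≤ 4), abs_div]
    congr 1
    rw [abs_of_pos (by norm_num : (0:ℝ) < 4)]; ring
  rw [h1, Real.sqrt_mul (by norm_num), show (4:ℝ) = 2 ^ 2 by norm_num,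
    Real.sqrt_sq (by norm_num)]
  have h2 : 0 < √(max |a / 2 ^ 2| w) := Real.sqrt_pos.2 (lt_max_of_lt_right hw)
  field_simp

theorem f_far {a w : ℝ} (hw : 0 < w) (ha : 1 / 6 ≤ |a|) : f a (4 * w) ≤ 20 * w := by
  unfold f
  have h1 : (2 / 5 : ℝ) ≤ √(max |a| (4 * w)) := by
    apply Real.le_sqrt_of_sq_le
    refine le_trans ?_ (le_max_left _ _)
    refine le_trans ?_ ha
    norm_num
  rw [div_le_iff₀ (lt_of_lt_of_le (by norm_num) h1)]
  nlinarith

theorem f_nonneg {a w : ℝ} (hw : 0 < w) : 0 ≤ f a w := by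
  unfold f; positivity

/-- the sum over one of the three parts -/
theorem part_le {k : ℕ} {H w C : ℝ} (hw : 0 < w)
    (ih : ((L k).map (fun c => f (H - c) (4 * w))).sum ≤ C) :
    ((L k).map (fun c => f ((H - c) / 4) w)).sum ≤ C / 2 := by
  have : (fun c => f ((H - c) / 4) w) = fun c => f (H - c) (4 * w) * (1 / 2) := by
    funext c
    rw [f_scale hw]; ring
  rw [this, List.sum_map_mul_right]
  linarith

theorem sum_map_le_of_le {l : List ℝ} {g : ℝ → ℝ} {B : ℝ} (h : ∀ c ∈ l, g c ≤ B) :
    (l.map g).sum ≤ l.length * B := by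
  induction l with
  | nil => simp
  | cons a l ih =>
    simp only [List.map_cons, List.sum_cons, List.length_cons, Nat.cast_add, Nat.cast_one]
    have h1 := h a (by simp)
    have h2 := ih (fun c hc => h c (by simp [hc]))
    linarith

theorem far_le {k : ℕ} {H w : ℝ} (hw : 0 < w) (hH : H ≤ -(1 / 6) ∨ 5 / 6 ≤ H) :
    ((L k).map (fun c => f (H - c) (4 * w))).sum ≤ 3 ^ k * (20 * w) := by
  have := sum_map_le_of_le (l := L k) (g := fun c => f (H - c) (4 * w)) (B := 20 * w) ?_
  · rw [L_length] at this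
    push_cast at this
    exact this
  · intro c hc
    have hc' := L_range k c hc
    apply f_far hw
    rcases hH with h | h
    · rw [abs_of_neg (by linarith)]; linarith
    · rw [abs_of_pos (by linarith)]; linarith

/-- The points of the Cantor set are well distributed. -/
theorem sum_le (k : ℕ) : ∀ H w : ℝ, (1 / 4 : ℝ) ^ k ≤ w →
    ((L k).map (fun c => f (H - c) w)).sum ≤ 30 * 3 ^ k * w := by
  induction k with
  | zero =>
    intro H w hw
    simp only [pow_zero] at hw
    simp only [L, List.map_cons, List.map_nil, List.sum_cons, List.sum_nil, add_zero, pow_zero,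
      mul_one]
    unfold f
    have h1 : (1 : ℝ) ≤ √(max |H - 0| w) := by
      rw [Real.one_le_sqrt]
      exact le_trans hw (le_max_right _ _)
    rw [div_le_iff₀ (by linarith)]
    nlinarith
  | succ k ih =>
    intro H w hw
    have hw0 : 0 < w := lt_of_lt_of_le (by positivity) hw
    have h4w : (1 / 4 : ℝ) ^ k ≤ 4 * w := by
      rw [pow_succ] at hw; linarith
    rw [sum_L_succ]
    have e0 : (fun c : ℝ => f (H - c / 4) w) = fun c => f ((4 * H - c) / 4) w := by
      funext c; congr 1; ring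
    have e1 : (fun c : ℝ => f (H - (1 + c) / 4) w) = fun c => f ((4 * H - 1 - c) / 4) w := by
      funext c; congr 1; ring
    have e2 : (fun c : ℝ => f (H - (2 + c) / 4) w) = fun c => f ((4 * H - 2 - c) / 4) w := by
      funext c; congr 1; ring
    rw [e0, e1, e2]
    have near : ∀ G : ℝ, ((L k).map (fun c => f ((G - c) / 4) w)).sum ≤
        (30 * 3 ^ k * (4 * w)) / 2 := fun G => part_le hw0 (ih G (4 * w) h4w)
    have far : ∀ G : ℝ, (G ≤ -(1 / 6) ∨ 5 / 6 ≤ G) →
        ((L k).map (fun c => f ((G - c) / 4) w)).sum ≤ (3 ^ k * (20 * w)) / 2 :=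
      fun G hG => part_le hw0 (far_le hw0 hG)
    have h3 : (0:ℝ) < 3 ^ k := by positivity
    have goal_eq : (30 : ℝ) * 3 ^ (k + 1) * w = 90 * (3 ^ k * w) := by ring
    have h3w : 0 < 3 ^ k * w := by positivity
    rw [goal_eq]
    by_cases c0 : 4 * H ≤ -(1 / 6) ∨ 5 / 6 ≤ 4 * H
    · by_cases c1 : 4 * H - 1 ≤ -(1 / 6) ∨ 5 / 6 ≤ 4 * H - 1
      · have a0 := far _ c0
        have a1 := far _ c1
        have a2 := near (4 * H - 2)
        nlinarith
      · have c2 : 4 * H - 2 ≤ -(1 / 6) ∨ 5 / 6 ≤ 4 * H - 2 := by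
          push Not at c1
          left; linarith [c1.2]
        have a0 := far _ c0
        have a1 := near (4 * H - 1)
        have a2 := far _ c2
        nlinarith
    · push Not at c0
      have c1 : 4 * H - 1 ≤ -(1 / 6) ∨ 5 / 6 ≤ 4 * H - 1 := by left; linarith [c0.2]
      have c2 : 4 * H - 2 ≤ -(1 / 6) ∨ 5 / 6 ≤ 4 * H - 2 := by left; linarith [c0.2]
      have a0 := near (4 * H)
      have a1 := far _ c1
      have a2 := far _ c2
      nlinarith

/-- The length of a slice. -/
theorem slice_le {x₀ a w : ℝ} (hw : 0 < w) :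
    volume {x : ℝ | a ≤ (x - x₀) ^ 2 ∧ (x - x₀) ^ 2 ≤ a + w} ≤ ENNReal.ofReal (f a w) := by
  set p := √(max a 0) with hp
  set q := √(a + w) with hq
  rcases lt_or_ge (a + w) 0 with h | h
  · have : {x : ℝ | a ≤ (x - x₀) ^ 2 ∧ (x - x₀) ^ 2 ≤ a + w} = ∅ := by
      ext x
      simp only [mem_ofPred_eq, mem_empty_iff_false, iff_false, not_and, not_le]
      intro _
      nlinarith [sq_nonneg (x - x₀)]
    rw [this]; simp
  · have hsub : {x : ℝ | a ≤ (x - x₀) ^ 2 ∧ (x - x₀) ^ 2 ≤ a + w} ⊆
        Icc (x₀ + p) (x₀ + q) ∪ Icc (x₀ - q) (x₀ - p) := by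
      rintro x ⟨h1, h2⟩
      have hp' : p ≤ |x - x₀| := by
        rw [hp, ← Real.sqrt_sq_eq_abs]
        apply Real.sqrt_le_sqrt
        exact max_le h1 (sq_nonneg _)
      have hq' : |x - x₀| ≤ q := by
        rw [hq, ← Real.sqrt_sq_eq_abs]
        exact Real.sqrt_le_sqrt h2
      rcases le_total 0 (x - x₀) with hx | hx
      · rw [abs_of_nonneg hx] at hp' hq'
        left; constructor <;> linarith
      · rw [abs_of_nonpos hx] at hp' hq'
        right; constructor <;> linarith
    refine (measure_mono hsub).trans ((measure_union_le _ _).trans ?_)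
    rw [Real.volume_Icc, Real.volume_Icc]
    have hpq : p ≤ q := by
      apply Real.sqrt_le_sqrt
      apply max_le <;> linarith
    rw [← ENNReal.ofReal_add (by linarith) (by linarith)]
    apply ENNReal.ofReal_le_ofReal
    have hM : 0 < √(max |a| w) := Real.sqrt_pos.2 (lt_max_of_lt_right hw)
    have key : (q - p) * √(max |a| w) ≤ w := by
      rcases le_total 0 a with ha | ha
      · have hp2 : p ^ 2 = a := by rw [hp, max_eq_left ha, Real.sq_sqrt ha]
        have hq2 : q ^ 2 = a + w := by rw [hq, Real.sq_sqrt h]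
        have hMq : √(max |a| w) ≤ q := by
          apply Real.sqrt_le_sqrt
          rw [abs_of_nonneg ha]
          apply max_le <;> linarith
        have hp0 : 0 ≤ p := Real.sqrt_nonneg _
        nlinarith
      · have hp2 : p = 0 := by rw [hp, max_eq_right ha, Real.sqrt_zero]
        have haw : |a| ≤ w := by rw [abs_of_nonpos ha]; linarith
        rw [hp2, sub_zero, max_eq_right haw]
        have hqw : q ≤ √w := Real.sqrt_le_sqrt (by linarith)
        calc q * √w ≤ √w * √w := by gcongr
          _ = w := Real.mul_self_sqrt hw.le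
    unfold f
    rw [le_div_iff₀ hM]
    have : (x₀ + q - (x₀ + p) + (x₀ - p - (x₀ - q))) = 2 * (q - p) := by ring
    rw [this]
    nlinarith

end Pool.Agent.N3.RS
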