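import Pool.Agent.N3.RS.Core
import Pool.Agent.Results.MP_6b55e5_an.RogersQ2

/-!
# A compact null set which has no strip covering of small total width
-/

set_option autoImplicit false

open MeasureTheory Set

namespace Pool.Agent.N3.RS

open Pool.Agent.Results.MP_6b55e5_an.RogersQ2

/-- the level sets of the Cantor set -/
def lev : ℕ → Set ℝ
  | 0 => Icc 0 (2 / 3)
  | k + 1 => {x | 4 * x ∈ lev k ∨ 4 * x - 1 ∈ lev k ∨ 4 * x - 2 ∈ lev k}

theorem isClosed_lev (k : ℕ) : IsClosed (lev k) := by
  induction k with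
  | zero => exact isClosed_Icc
  | succ k ih =>
    have h0 : IsClosed ((fun x : ℝ => 4 * x) ⁻¹' lev k) := ih.preimage (by fun_prop)
    have h1 : IsClosed ((fun x : ℝ => 4 * x - 1) ⁻¹' lev k) := ih.preimage (by fun_prop)
    have h2 : IsClosed ((fun x : ℝ => 4 * x - 2) ⁻¹' lev k) := ih.preimage (by fun_prop)
    exact h0.union (h1.union h2)

theorem volume_affine (s : Set ℝ) (b : ℝ) :
    volume ((fun x : ℝ => 4 * x - b) ⁻¹' s) = ENNReal.ofReal (1 / 4) * volume s := by
  have e : (fun x : ℝ => 4 * x - b) ⁻¹' s = (fun x : ℝ => 4 * x) ⁻¹' ((fun x : ℝ => x + (-b)) ⁻¹' s) := by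
    ext x; simp [sub_eq_add_neg]
  rw [e, Real.volume_preimage_mul_left (by norm_num : (4:ℝ) ≠ 0), measure_preimage_add_right]
  congr 2
  rw [abs_of_pos (by norm_num)]; norm_num

theorem volume_lev (k : ℕ) : volume (lev k) ≤ ENNReal.ofReal ((3 / 4) ^ k) := by
  induction k with
  | zero =>
    simp only [lev, Real.volume_Icc, pow_zero]
    apply ENNReal.ofReal_le_ofReal; norm_num
  | succ k ih =>
    have h0 := volume_affine (lev k) 0
    have h1 := volume_affine (lev k) 1
    have h2 := volume_affine (lev k) 2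
    have hs : lev (k + 1) ⊆ ((fun x : ℝ => 4 * x - 0) ⁻¹' lev k) ∪
        (((fun x : ℝ => 4 * x - 1) ⁻¹' lev k) ∪ ((fun x : ℝ => 4 * x - 2) ⁻¹' lev k)) := by
      intro x hx
      rcases hx with h | h | h
      · left; simpa using h
      · right; left; exact h
      · right; right; exact h
    refine (measure_mono hs).trans ((measure_union_le _ _).trans
      ((add_le_add le_rfl (measure_union_le _ _)).trans ?_))
    rw [h0, h1, h2]
    calc _ = ENNReal.ofReal (3 / 4) * volume (lev k) := by
          rw [← add_mul, ← add_mul, ← ENNReal.ofReal_add (by norm_num) (by norm_num),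
            ← ENNReal.ofReal_add (by norm_num) (by norm_num)]
          norm_num
      _ ≤ ENNReal.ofReal (3 / 4) * ENNReal.ofReal ((3 / 4) ^ k) := by gcongr
      _ = _ := by
          rw [← ENNReal.ofReal_mul (by norm_num), pow_succ]
          congr 1; ring

/-- the Cantor set of the numbers whose digits in base four are `0`, `1`, `2` -/
def R : Set ℝ := ⋂ k, lev k

theorem isClosed_R : IsClosed R := isClosed_iInter isClosed_lev

theorem volume_R : volume R = 0 := by
  refine le_antisymm ?_ bot_le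
  have h1 : ∀ k, volume R ≤ ENNReal.ofReal ((3 / 4) ^ k) := fun k =>
    (measure_mono (iInter_subset _ k)).trans (volume_lev k)
  have h2 : Filter.Tendsto (fun k : ℕ => ENNReal.ofReal ((3 / 4 : ℝ) ^ k)) Filter.atTop (nhds 0) := by
    have := ENNReal.tendsto_ofReal
      (tendsto_pow_atTop_nhds_zero_of_lt_one (r := (3 / 4 : ℝ)) (by norm_num) (by norm_num))
    simpa using this
  exact ge_of_tendsto' h2 h1

theorem R_subset : R ⊆ Icc 0 (2 / 3) := iInter_subset lev 0

theorem L_subset (k : ℕ) : ∀ c ∈ L k, ∀ m, c ∈ lev m := by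
  induction k with
  | zero =>
    intro c hc m
    simp only [L, List.mem_singleton] at hc
    subst hc
    induction m with
    | zero => simp only [lev, mem_Icc]; norm_num
    | succ m ih => left; simpa using ih
  | succ k ih =>
    intro c hc m
    have hr := L_range (k + 1) c hc
    cases m with
    | zero => exact ⟨hr.1, hr.2⟩
    | succ m =>
      simp only [L, List.mem_append, List.mem_map] at hc
      rcases hc with ⟨c', hc', rfl⟩ | ⟨c', hc', rfl⟩ | ⟨c', hc', rfl⟩
      · left
        have := ih c' hc' m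
        rwa [show 4 * (c' / 4) = c' by ring]
      · right; left
        have := ih c' hc' m
        rwa [show 4 * ((1 + c') / 4) - 1 = c' by ring]
      · right; right
        have := ih c' hc' m
        rwa [show 4 * ((2 + c') / 4) - 2 = c' by ring]

theorem L_subset_R (k : ℕ) : ∀ c ∈ L k, c ∈ R := fun c hc => mem_iInter.2 (L_subset k c hc)

/-- The union of the parabolic arcs `y = x ^ 2 + c`, `0 ≤ x ≤ 1`, with `c` in the Cantor set `R`. -/
def F : Set Plane := {v | 0 ≤ v 0 ∧ v 0 ≤ 1 ∧ v 1 - v 0 ^ 2 ∈ R}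

theorem isClosed_F : IsClosed F := by
  have h0 : Continuous fun v : Plane => v 0 := by fun_prop
  have h1 : Continuous fun v : Plane => v 1 - v 0 ^ 2 := by fun_prop
  exact (isClosed_le continuous_const h0).inter
    ((isClosed_le h0 continuous_const).inter (isClosed_R.preimage h1))

theorem isBounded_F : Bornology.IsBounded F := by
  refine (Metric.isBounded_closedBall (x := (0 : Plane)) (r := 2)).subset ?_
  rintro v ⟨h0, h1, hR⟩
  have hR' := R_subset hR
  rw [mem_closedBall_zero_iff, EuclideanSpace.norm_eq, Fin.sum_univ_two]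
  rw [show (2 : ℝ) = √4 by rw [show (4 : ℝ) = 2 ^ 2 by norm_num, Real.sqrt_sq (by norm_num)]]
  apply Real.sqrt_le_sqrt
  rw [Real.norm_eq_abs, Real.norm_eq_abs, sq_abs, sq_abs]
  have hx : v 0 ^ 2 ≤ 1 := by nlinarith
  have hy0 : 0 ≤ v 1 := by have := hR'.1; nlinarith [sq_nonneg (v 0)]
  have hy1 : v 1 ≤ 5 / 3 := by have := hR'.2; linarith
  nlinarith

theorem isCompact_F : IsCompact F := Metric.isCompact_of_isClosed_isBounded isClosed_F isBounded_F

theorem volume_F : volume F = 0 := by
  have hmp : MeasurePreserving (fun v : Plane => (v 0, v 1)) volume volume := by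
    have h1 := PiLp.volume_preserving_ofLp (Fin 2)
    have h2 := volume_preserving_finTwoArrow ℝ
    exact h2.comp h1
  have hcl : IsClosed {p : ℝ × ℝ | p.2 - p.1 ^ 2 ∈ R} :=
    isClosed_R.preimage (by fun_prop)
  have hsub : F ⊆ (fun v : Plane => (v 0, v 1)) ⁻¹' {p : ℝ × ℝ | p.2 - p.1 ^ 2 ∈ R} := by
    rintro v ⟨_, _, h⟩
    exact h
  refine measure_mono_null hsub ?_
  rw [hmp.measure_preimage hcl.measurableSet.nullMeasurableSet, Measure.volume_eq_prod,
    Measure.measure_prod_null hcl.measurableSet]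
  filter_upwards with x
  have : Prod.mk x ⁻¹' {p : ℝ × ℝ | p.2 - p.1 ^ 2 ∈ R} = (fun y => y + (-(x ^ 2))) ⁻¹' R := by
    ext y; simp [sub_eq_add_neg]
  rw [this, measure_preimage_add_right, volume_R]
  rfl

/-- the part of the arc `c` in a strip, as a set of parameters -/
def A (p q h w c : ℝ) : Set ℝ := {x | (0 ≤ x ∧ x ≤ 1) ∧ h ≤ p * x + q * (x ^ 2 + c) ∧
  p * x + q * (x ^ 2 + c) ≤ h + w}

theorem A_neg (p q h w c : ℝ) : A p q h w c = A (-p) (-q) (-h - w) w c := by
  ext x
  simp only [A, mem_ofPred_eq]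
  constructor
  · rintro ⟨h1, h2, h3⟩
    refine ⟨h1, ?_, ?_⟩ <;> nlinarith
  · rintro ⟨h1, h2, h3⟩
    refine ⟨h1, ?_, ?_⟩ <;> nlinarith

theorem steep {p q h w c : ℝ} (hpq : p ^ 2 + q ^ 2 = 1) (hq : |q| ≤ 1 / 3) (hw : 0 < w) :
    volume (A p q h w c) ≤ ENNReal.ofReal (4 * w) := by
  refine (Real.volume_le_diam _).trans ?_
  refine Metric.ediam_le ?_
  rintro x ⟨hx, h1, h2⟩ y ⟨hy, h3, h4⟩
  rw [edist_dist, Real.dist_eq]
  apply ENNReal.ofReal_le_ofReal
  have hq' := abs_le.1 hq
  have hp : 23 / 25 ≤ |p| := by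
    by_contra hcon
    push Not at hcon
    have : p ^ 2 < 529 / 625 := by
      rw [← sq_abs]
      nlinarith [abs_nonneg p]
    nlinarith
  have hsum : |q * (x + y)| ≤ 2 / 3 := by
    rw [abs_mul]
    have : |x + y| ≤ 2 := by rw [abs_le]; constructor <;> linarith
    nlinarith [abs_nonneg q, abs_nonneg (x + y)]
  have hder : 1 / 4 ≤ |p + q * (x + y)| := by
    have := abs_sub_abs_le_abs_sub p (-(q * (x + y)))
    rw [abs_neg, sub_neg_eq_add] at this
    linarith
  have hdiff : |(x - y) * (p + q * (x + y))| ≤ w := by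
    rw [abs_le]; constructor <;> nlinarith
  rw [abs_mul] at hdiff
  nlinarith [abs_nonneg (x - y)]

theorem flat {p q h w c : ℝ} (hq : 1 / 3 < q) (hw : 0 < w) :
    volume (A p q h w c) ≤
      ENNReal.ofReal (f (h / q + p ^ 2 / (4 * q ^ 2) - c) (w / q)) := by
  have hq0 : 0 < q := by linarith
  refine le_trans (measure_mono ?_) (slice_le (x₀ := -(p / (2 * q))) (div_pos hw hq0))
  rintro x ⟨hx, h1, h2⟩
  have key : (x - -(p / (2 * q))) ^ 2 =
      (p * x + q * (x ^ 2 + c)) / q + p ^ 2 / (4 * q ^ 2) - c := by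
    field_simp; ring
  rw [mem_ofPred_eq, key]
  have e1 : h / q ≤ (p * x + q * (x ^ 2 + c)) / q := by gcongr
  have e2 : (p * x + q * (x ^ 2 + c)) / q ≤ h / q + w / q := by
    rw [← add_div h w q]; gcongr
  constructor <;> linarith

theorem sum_ofReal {l : List ℝ} {g : ℝ → ℝ} (hg : ∀ c, 0 ≤ g c) :
    (l.map (fun c => ENNReal.ofReal (g c))).sum = ENNReal.ofReal ((l.map g).sum) := by
  induction l with
  | nil => simp
  | cons a l ih =>
    simp only [List.map_cons, List.sum_cons]
    rw [ih, ENNReal.ofReal_add (hg a) (List.sum_nonneg (by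
      intro x hx
      obtain ⟨c, _, rfl⟩ := List.mem_map.1 hx
      exact hg c))]

theorem sum_mono {l : List ℝ} {g g' : ℝ → ENNReal} (h : ∀ c ∈ l, g c ≤ g' c) :
    (l.map g).sum ≤ (l.map g').sum := by
  induction l with
  | nil => simp
  | cons a l ih =>
    simp only [List.map_cons, List.sum_cons]
    exact add_le_add (h a (by simp)) (ih fun c hc => h c (by simp [hc]))

/-- The sum over the arcs of the lengths in a strip. -/
theorem strip_sum (k : ℕ) {p q h w : ℝ} (hpq : p ^ 2 + q ^ 2 = 1) (hw : (1 / 4 : ℝ) ^ k ≤ w) :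
    ((L k).map (fun c => volume (A p q h w c))).sum ≤ ENNReal.ofReal (90 * 3 ^ k * w) := by
  have hw0 : 0 < w := lt_of_lt_of_le (by positivity) hw
  have main : ∀ p q h : ℝ, p ^ 2 + q ^ 2 = 1 → 1 / 3 < q →
      ((L k).map (fun c => volume (A p q h w c))).sum ≤ ENNReal.ofReal (90 * 3 ^ k * w) := by
    intro p q h hpq hq
    have hq0 : 0 < q := by linarith
    have hq1 : q ≤ 1 := by nlinarith [sq_nonneg p]
    refine (sum_mono (g' := fun c => ENNReal.ofReal
      (f (h / q + p ^ 2 / (4 * q ^ 2) - c) (w / q))) fun c _ => flat hq hw0).trans ?_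
    rw [sum_ofReal fun c => f_nonneg (div_pos hw0 hq0)]
    apply ENNReal.ofReal_le_ofReal
    have hwq : w ≤ w / q := by
      rw [le_div_iff₀ hq0]; nlinarith
    refine (sum_le k _ _ (hw.trans hwq)).trans ?_
    have : w / q ≤ 3 * w := by
      rw [div_le_iff₀ hq0]; nlinarith
    have h3 : (0 : ℝ) < 3 ^ k := by positivity
    nlinarith
  rcases le_or_gt |q| (1 / 3) with hq | hq
  · refine (sum_mono (g' := fun _ => ENNReal.ofReal (4 * w)) fun c _ =>
      steep hpq hq hw0).trans ?_
    rw [List.map_const', List.sum_replicate, L_length, nsmul_eq_mul]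
    push_cast
    rw [← ENNReal.ofReal_ofNat 3, ← ENNReal.ofReal_pow (by norm_num),
      ← ENNReal.ofReal_mul (by positivity)]
    apply ENNReal.ofReal_le_ofReal
    have h3 : (0 : ℝ) < 3 ^ k := by positivity
    nlinarith
  · rcases lt_abs.1 hq with h1 | h1
    · exact main p q h hpq h1
    · have e : (fun c => volume (A p q h w c)) = fun c => volume (A (-p) (-q) (-h - w) w c) := by
        funext c; rw [A_neg]
      rw [e]
      exact main _ _ _ (by nlinarith) h1

/-- Every strip covering of `F` has total width at least `1 / 180`. -/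
theorem not_cover : ¬ HasStripCover F (1 / 180) := by
  rintro ⟨ι, _, S, w, hS, hcov, hsum, hlt⟩
  choose hw u h hu hSe using hS
  -- open strips of twice the width
  set O : ι → Set Plane := fun i => {x | h i - w i / 2 < inner ℝ (u i) x ∧
    inner ℝ (u i) x < h i - w i / 2 + 2 * w i} with hO
  have hOo : ∀ i, IsOpen (O i) := by
    intro i
    have hc : Continuous fun x : Plane => inner ℝ (u i) x := by fun_prop
    exact (isOpen_lt continuous_const hc).inter (isOpen_lt hc continuous_const)
  have hSO : ∀ i, S i ⊆ O i := by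
    intro i x hx
    rw [hSe i] at hx
    have := hw i
    exact ⟨by linarith [hx.1], by linarith [hx.2]⟩
  obtain ⟨t, ht⟩ := isCompact_F.elim_finite_subcover O hOo
    (hcov.trans (iUnion_mono hSO))
  -- a level finer than all widths
  obtain ⟨k, hk⟩ : ∃ k : ℕ, ∀ i ∈ t, (1 / 4 : ℝ) ^ k ≤ 2 * w i := by
    have hev : ∀ i ∈ t, ∀ᶠ k : ℕ in Filter.atTop, (1 / 4 : ℝ) ^ k ≤ 2 * w i := by
      intro i _
      have h1 := tendsto_pow_atTop_nhds_zero_of_lt_one (r := (1 / 4 : ℝ)) (by norm_num)
        (by norm_num)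
      filter_upwards [h1.eventually (gt_mem_nhds (show (0 : ℝ) < 2 * w i by
        have := hw i; linarith))] with k hk
      exact hk.le
    exact ((Finset.eventually_all t).2 hev).exists
  -- the unit interval is covered, for every arc
  have hcovc : ∀ c ∈ L k, (1 : ENNReal) ≤
      ∑ i ∈ t, volume (A (u i 0) (u i 1) (h i - w i / 2) (2 * w i) c) := by
    intro c hc
    have hsub : Icc (0 : ℝ) 1 ⊆
        ⋃ i ∈ t, A (u i 0) (u i 1) (h i - w i / 2) (2 * w i) c := by
      rintro x ⟨hx0, hx1⟩
      have hmem : (!₂[x, x ^ 2 + c] : Plane) ∈ F := by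
        refine ⟨by simpa using hx0, by simpa using hx1, ?_⟩
        simpa using L_subset_R k c hc
      have := ht hmem
      simp only [mem_iUnion, exists_prop] at this ⊢
      obtain ⟨i, hi, h1, h2⟩ := this
      refine ⟨i, hi, ⟨hx0, hx1⟩, ?_, ?_⟩
      · have e : inner ℝ (u i) (!₂[x, x ^ 2 + c] : Plane) =
            u i 0 * x + u i 1 * (x ^ 2 + c) := by
          rw [PiLp.inner_apply, Fin.sum_univ_two]
          simp [mul_comm]
        rw [e] at h1
        exact h1.le
      · have e : inner ℝ (u i) (!₂[x, x ^ 2 + c] : Plane) =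
            u i 0 * x + u i 1 * (x ^ 2 + c) := by
          rw [PiLp.inner_apply, Fin.sum_univ_two]
          simp [mul_comm]
        rw [e] at h2
        exact h2.le
    calc (1 : ENNReal) = volume (Icc (0 : ℝ) 1) := by simp
      _ ≤ volume (⋃ i ∈ t, A (u i 0) (u i 1) (h i - w i / 2) (2 * w i) c) := measure_mono hsub
      _ ≤ _ := measure_biUnion_finset_le _ _
  -- sum over the arcs
  have hlow : (3 : ENNReal) ^ k ≤ ((L k).map (fun c =>
      ∑ i ∈ t, volume (A (u i 0) (u i 1) (h i - w i / 2) (2 * w i) c))).sum := by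
    refine le_trans (le_of_eq ?_) (sum_mono (g := fun _ => 1) hcovc)
    rw [List.map_const', List.sum_replicate, L_length]
    simp
  have hswap : ((L k).map (fun c =>
      ∑ i ∈ t, volume (A (u i 0) (u i 1) (h i - w i / 2) (2 * w i) c))).sum =
      ∑ i ∈ t, ((L k).map (fun c =>
        volume (A (u i 0) (u i 1) (h i - w i / 2) (2 * w i) c))).sum := by
    generalize L k = l
    induction l with
    | nil => simp
    | cons a l ih => simp [ih, Finset.sum_add_distrib]
  have hup : ∑ i ∈ t, ((L k).map (fun c =>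
        volume (A (u i 0) (u i 1) (h i - w i / 2) (2 * w i) c))).sum ≤
      ENNReal.ofReal (180 * 3 ^ k * ∑ i ∈ t, w i) := by
    calc _ ≤ ∑ i ∈ t, ENNReal.ofReal (90 * 3 ^ k * (2 * w i)) := by
          refine Finset.sum_le_sum fun i hi => strip_sum k ?_ (hk i hi)
          have := hu i
          rw [EuclideanSpace.norm_eq, Fin.sum_univ_two, Real.sqrt_eq_one] at this
          simpa using this
      _ = ENNReal.ofReal (∑ i ∈ t, 90 * 3 ^ k * (2 * w i)) := by
          rw [ENNReal.ofReal_sum_of_nonneg]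
          intro i _
          have := hw i
          positivity
      _ = _ := by
          congr 1
          rw [Finset.mul_sum]
          refine Finset.sum_congr rfl fun i _ => ?_
          ring
  have hfin : ∑ i ∈ t, w i ≤ ∑' i, w i := hsum.sum_le_tsum t fun i _ => (hw i).le
  have hcontra : (3 : ENNReal) ^ k < 3 ^ k := by
    calc (3 : ENNReal) ^ k ≤ ENNReal.ofReal (180 * 3 ^ k * ∑ i ∈ t, w i) := by
          rw [← hswap] at hup
          exact hlow.trans hup
      _ < ENNReal.ofReal (3 ^ k) := by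
          rw [ENNReal.ofReal_lt_ofReal_iff (by positivity)]
          have h3 : (0 : ℝ) < 3 ^ k := by positivity
          have : ∑ i ∈ t, w i < 1 / 180 := lt_of_le_of_lt hfin hlt
          nlinarith
      _ = 3 ^ k := by
          rw [ENNReal.ofReal_pow (by norm_num)]
          norm_num
  exact lt_irrefl _ hcontra

/-- Enlarging a Besicovitch set by `F`. -/
theorem union_F {E : Set Plane} (hE : IsBesicovitch E) : IsBesicovitch (E ∪ F) := by
  obtain ⟨h1, h2, h3⟩ := hE
  refine ⟨h1.union isBounded_F, measure_union_null h2 volume_F, fun e he => ?_⟩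
  obtain ⟨x, hx⟩ := h3 e he
  exact ⟨x, hx.trans subset_union_left⟩

theorem HasStripCover.mono {E E' : Set Plane} {ε : ℝ} (h : E ⊆ E') (hc : HasStripCover E' ε) :
    HasStripCover E ε := by
  obtain ⟨ι, hι, S, w, h1, h2, h3⟩ := hc
  exact ⟨ι, hι, S, w, h1, h.trans h2, h3⟩

end Pool.Agent.N3.RS
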